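import Mathlib
import Pool.Agent.N788.MuDil

/-!
# Autocorrelations of the Möbius function at every scale, averaged over dilations

The sign flip lemma and the Turán–Kubilius inequality in dual form are from `Pool.Agent.N675`
(helper675). From Mathlib: `ArithmeticFunction.moebius`, the Möbius function;
`ArithmeticFunction.cardFactors n`: the number of the prime factors of `n` with multiplicity;
`Finset.Icc 1 x`: the integers `n` with `1 ≤ n ≤ x`; `Nat.divisors Q`: the positive divisors of `Q`.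
-/

set_option autoImplicit false

namespace Pool.Agent.Results.MP_c59857_nt.AlmostInvariantDilates

open Finset

/-- The Möbius function on the integers, with `μ(m) = 0` for `m ≤ 0`. -/
noncomputable def mu (m : ℤ) : ℝ := ((ArithmeticFunction.moebius m.toNat : ℤ) : ℝ)

/-- The number of the exponents equal to `1`. -/
def ones {r : ℕ} (e : Fin r → ℕ) : ℕ := (univ.filter (fun i => e i = 1)).card

/-- The weight of the dilation by `d`: it is `1` if the number of the exponents equal to `1` is odd, and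
`λ(d)` (the Liouville function) if this number is even. -/
noncomputable def weight {r : ℕ} (e : Fin r → ℕ) (d : ℕ) : ℝ :=
  if Odd (ones e) then 1 else (-1) ^ ArithmeticFunction.cardFactors d

/-- The sum of the products of the `μ(a i * n + b i * d) ^ (e i)` over `n ≤ x`. For `a i = 1` these are
the sums for the shifts `b i * d`. -/
noncomputable def S {r : ℕ} (a : Fin r → ℕ) (b : Fin r → ℤ) (e : Fin r → ℕ) (d x : ℕ) : ℝ :=
  ∑ n ∈ Icc 1 x, ∏ i, mu ((a i : ℤ) * n + b i * d) ^ (e i)

lemma parity {r : ℕ} (e : Fin r → ℕ) (he : ∀ i, e i = 1 ∨ e i = 2) :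
    (-1 : ℝ) ^ (∑ i, e i) = (-1 : ℝ) ^ (ones e) := by
  classical
  unfold ones
  have h : ∀ i, (-1 : ℝ) ^ (e i) = if e i = 1 then -1 else 1 := by
    intro i
    rcases he i with h | h <;> rw [h] <;> norm_num
  rw [← prod_pow_eq_pow_sum, prod_congr rfl (fun i _ => h i), prod_ite, prod_const, prod_const_one, mul_one]

lemma weight_eq {r : ℕ} (e : Fin r → ℕ) (he : ∀ i, e i = 1 ∨ e i = 2) (d : ℕ) :
    weight e d = Pool.Agent.N788.MuDil.lam d ^ ((∑ i, e i) + 1) := by
  have hpar : Odd (∑ i, e i) ↔ Odd (ones e) := by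
    have := parity e he
    rcases Nat.even_or_odd (∑ i, e i) with h1 | h1 <;> rcases Nat.even_or_odd (ones e) with h2 | h2
    · simp only [Nat.not_odd_iff_even.mpr h1, Nat.not_odd_iff_even.mpr h2]
    · rw [h1.neg_one_pow, h2.neg_one_pow] at this; norm_num at this
    · rw [h1.neg_one_pow, h2.neg_one_pow] at this; norm_num at this
    · simp only [h1, h2]
  unfold weight Pool.Agent.N788.MuDil.lam
  rw [← pow_mul]
  split_ifs with h
  · have : Even (ArithmeticFunction.cardFactors d * ((∑ i, e i) + 1)) :=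
      Even.mul_left ((hpar.mpr h).add_one) _
    rw [this.neg_one_pow]
  · rw [← hpar, Nat.not_odd_iff_even] at h
    rw [mul_add, mul_one, pow_add]
    have : Even (ArithmeticFunction.cardFactors d * (∑ i, e i)) := h.mul_left _
    rw [this.neg_one_pow, one_mul]

theorem result (r : ℕ) (a : Fin r → ℕ) (b : Fin r → ℤ) (e : Fin r → ℕ) (ha : ∀ i, 1 ≤ a i)
    (he : ∀ i, e i = 1 ∨ e i = 2) (η : ℝ) (hη : 0 < η) :
    ∃ (K : ℕ) (δ : ℝ), 0 < δ ∧
      (∀ D : Finset ℕ, 0 ∉ D →
        (∀ p : ℕ, p.Prime → p ≤ K → ((D.filter (fun d => p * d ∉ D)).card : ℝ) ≤ δ * D.card) →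
        ∀ x : ℕ, K ≤ x → |∑ d ∈ D, weight e d * S a b e d x| ≤ η * x * D.card) ∧
      (∀ Q : ℕ, 0 < Q → (∀ p : ℕ, p.Prime → p ≤ K → p ^ K ∣ Q) →
        ∀ x : ℕ, K ≤ x → |∑ d ∈ Q.divisors, weight e d * S a b e d x| ≤ η * x * Q.divisors.card) := by
  obtain ⟨K, hK, δ, hδ, h⟩ := Pool.Agent.N788.MuDil.main a b e ha
    (fun i => by rcases he i with h | h <;> omega) η hη
  have h1 : ∀ D : Finset ℕ, 0 ∉ D →
        (∀ p : ℕ, p.Prime → p ≤ K → ((D.filter (fun d => p * d ∉ D)).card : ℝ) ≤ δ * D.card) →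
        ∀ x : ℕ, K ≤ x → |∑ d ∈ D, weight e d * S a b e d x| ≤ η * x * D.card := by
    intro D hD0 hD x hx
    refine le_trans (le_of_eq ?_) (h D hD0 hD x hx)
    congr 1
    refine sum_congr rfl fun d _ => ?_
    rw [weight_eq e he]
    rfl
  obtain ⟨V, hV⟩ := exists_nat_ge (1 / δ)
  refine ⟨K + V, δ, hδ, fun D hD0 hD x hx => h1 D hD0 (fun p hp hpK => hD p hp (by omega)) x (by omega),
    fun Q hQ hdiv x hx => h1 Q.divisors (by simp) (fun p hp hpK => ?_) x (by omega)⟩
  have h2 := Pool.Agent.N788.MuDil.card_not_mul_dvd hp hQ (hdiv p hp (by omega))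
  have h3 : (Q.divisors.filter (fun d => p * d ∉ Q.divisors)) = Q.divisors.filter (fun d => ¬ p * d ∣ Q) := by
    refine filter_congr fun d _ => ?_
    rw [Nat.mem_divisors]
    constructor
    · intro h4 h5
      exact h4 ⟨h5, hQ.ne'⟩
    · intro h4 h5
      exact h4 h5.1
  rw [h3]
  have h4 : (((K + V + 1) * (Q.divisors.filter (fun d => ¬ p * d ∣ Q)).card : ℕ) : ℝ) ≤
      (Q.divisors.card : ℝ) := by exact_mod_cast h2
  push_cast at h4
  have h5 : 1 ≤ δ * ((K : ℝ) + V + 1) := by
    rw [div_le_iff₀ hδ] at hV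
    nlinarith [Nat.cast_nonneg (α := ℝ) K]
  have h6 : (0 : ℝ) ≤ ((Q.divisors.filter (fun d => ¬ p * d ∣ Q)).card : ℝ) := Nat.cast_nonneg _
  have h7 := mul_le_mul_of_nonneg_left h4 hδ.le
  nlinarith

end Pool.Agent.Results.MP_c59857_nt.AlmostInvariantDilates
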