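import Mathlib
import Pool.Agent.N788.Sys.GenC

/-!
# Correlations of multiplicative functions with several short and long parameters

From the team: the cluster theorem and the theorem on additive twists (`Pool.Agent.N675.M`, project M
of helper675), the passage to fixed functions (`Pool.Agent.N781.FV`, helper781). From Mathlib:
`Fintype.piFinset S`: the vectors `d` with `d j ∈ S j` for all `j`; `m.natAbs`: the absolute value of
the integer `m`; `Nat.Primes`: the type of the prime numbers.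
-/

open Finset

namespace Pool.Agent.Results.MP_0c9a68_nt.Clusters

/-- Multiplicative functions with values in the closed unit disc. -/
def IsMult (f : ℕ → ℂ) : Prop :=
  (∀ n, ‖f n‖ ≤ 1) ∧ ∀ m n : ℕ, m.Coprime n → f (m * n) = f m * f n

/-- `g` is far from all twisted characters: for every Dirichlet character `χ` and every real `v`
there is `η > 0` such that the sum of `1 / p` over the primes `p` with
`|g(p) - χ(p) p ^ (i v)| > η` is infinite. -/
def FarFromTwists (g : ℕ → ℂ) : Prop :=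
  ∀ (q : ℕ) (χ : DirichletCharacter ℂ q) (v : ℝ), 1 ≤ q → ∃ η : ℝ, 0 < η ∧
    ¬ Summable fun p : {p : ℕ // p.Prime ∧
      η < ‖g p - χ (p : ZMod q) * (p : ℂ) ^ (Complex.I * (v : ℂ))‖} => (1 : ℝ) / (p : ℕ)

/-- `g` has finitely many values at the primes, and `𝔻(g, χ; ∞) = ∞` for all Dirichlet characters
`χ`. -/
def FiniteNonPretentious (g : ℕ → ℂ) : Prop :=
  (g '' {p : ℕ | p.Prime}).Finite ∧ ∀ (q : ℕ) (χ : DirichletCharacter ℂ q), 1 ≤ q →
    ¬ Summable fun p : Nat.Primes =>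
      (1 - (g p * (starRingEnd ℂ) (χ ((p : ℕ) : ZMod q))).re) / ((p : ℕ) : ℝ)

/-- The correlation sum `∑_{n ≤ x} ∏ i, f i |a i n + ∑ j, L i j d j|`. -/
noncomputable def corr {k r : ℕ} (a : Fin k → ℤ) (L : Fin k → Fin r → ℤ) (f : Fin k → ℕ → ℂ)
    (x : ℕ) (d : Fin r → ℤ) : ℂ :=
  ∑ n ∈ Icc (1 : ℤ) x, ∏ i, f i (a i * n + ∑ j, L i j * d j).natAbs

/-- The correlation sum with the additional factor `exp (2 π i γ n)`. -/
noncomputable def twisted {k r : ℕ} (a : Fin k → ℤ) (L : Fin k → Fin r → ℤ) (f : Fin k → ℕ → ℂ)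
    (γ : ℝ) (x : ℕ) (d : Fin r → ℤ) : ℂ :=
  ∑ n ∈ Icc (1 : ℤ) x, Complex.exp (Complex.I * ((2 * Real.pi * (γ * n) : ℝ) : ℂ)) *
    ∏ i, f i (a i * n + ∑ j, L i j * d j).natAbs

/-- The cluster of the form `i₀` among the forms `a i n + ∑ t, L i t d t`: the forms whose vector of
coefficients at `n` and at the long parameters `d t`, `t ∈ lg`, is proportional to the one of the
form `i₀`. Without long parameters it consists of all forms. -/
def cluster {k r : ℕ} (a : Fin k → ℤ) (L : Fin k → Fin r → ℤ) (lg : Finset (Fin r))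
    (i₀ : Fin k) : Finset (Fin k) :=
  univ.filter fun i => ∀ t ∈ lg, a i * L i₀ t = a i₀ * L i t

/-- long parameters as a boolean function -/
def lgb {r : ℕ} (lg : Finset (Fin r)) (t : Fin r) : Bool := decide (t ∈ lg)

lemma cls_eq {k r : ℕ} (a : Fin k → ℤ) (L : Fin k → Fin r → ℤ) (lg : Finset (Fin r))
    (i₀ : Fin k) : Pool.Agent.N675.M.cls a L (lgb lg) i₀ = cluster a L lg i₀ := by
  ext i
  rw [Pool.Agent.N675.M.mem_cls]
  unfold cluster
  rw [Finset.mem_filter]
  simp [lgb]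

lemma unbounded_of_not_summable (P : ℕ → Prop) (a : ℕ → ℝ) (ha : ∀ p, P p → 0 ≤ a p)
    (h : ¬ Summable fun p : {p : ℕ // P p} => a p) (M : ℝ) :
    ∃ T : ℕ, ∀ S : Finset ℕ, (∀ p, P p → p ≤ T → p ∈ S) → (∀ p ∈ S, P p) →
      M < ∑ p ∈ S, a p := by
  by_contra hcon
  push Not at hcon
  apply h
  refine summable_of_sum_le (c := M) (fun p => ha p p.2) fun u => ?_
  obtain ⟨S, hS1, hS2, hS3⟩ := hcon (u.sup (fun p => (p : ℕ)))
  refine le_trans ?_ hS3
  have h1 : ∑ p ∈ u, a p = ∑ p ∈ u.map (Function.Embedding.subtype P), a p := by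
    rw [Finset.sum_map]
    rfl
  rw [h1]
  refine Finset.sum_le_sum_of_subset_of_nonneg ?_ fun p hp _ => ha p (hS2 p hp)
  intro p hp
  rw [Finset.mem_map] at hp
  obtain ⟨⟨x, hx⟩, hxu, rfl⟩ := hp
  exact hS1 x hx (Finset.le_sup (f := fun p : {p : ℕ // P p} => (p : ℕ)) hxu)

/-- the two conditions in terms of partial sums -/
lemma cond (G : ℕ → ℂ) (hG : ∀ p, ‖G p‖ ≤ 1) (h : FarFromTwists G ∨ FiniteNonPretentious G) :
    (∀ (q : ℕ) (χ : DirichletCharacter ℂ q) (v : ℝ), 1 ≤ q → ∃ η : ℝ, 0 < η ∧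
        ∀ M : ℝ, ∃ T : ℕ, M < Pool.Agent.N781.FV.mass G χ v η T) ∨
      ((Set.range fun p : Nat.Primes => G p).Finite ∧
        ∀ (q : ℕ) (χ : DirichletCharacter ℂ q), 1 ≤ q →
          ∀ M : ℝ, ∃ T : ℕ, M < Pool.Agent.N781.FV.dist2 G χ T) := by
  rcases h with h | ⟨hfin, h⟩
  · left
    intro q χ v hq
    obtain ⟨η, hη, hns⟩ := h q χ v hq
    refine ⟨η, hη, fun M => ?_⟩
    obtain ⟨T, hT⟩ := unbounded_of_not_summable _ (fun p => (1 : ℝ) / (p : ℕ))
      (fun p _ => by positivity) hns M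
    refine ⟨T, hT _ (fun p hp hpT => ?_) (fun p hp => (Finset.mem_filter.mp hp).2)⟩
    exact Finset.mem_filter.mpr ⟨Finset.mem_Icc.mpr ⟨hp.1.one_lt.le, hpT⟩, hp⟩
  · right
    refine ⟨hfin.subset ?_, fun q χ hq M => ?_⟩
    · rintro _ ⟨p, rfl⟩
      exact ⟨p, p.2, rfl⟩
    · obtain ⟨T, hT⟩ := unbounded_of_not_summable (fun p => p.Prime)
        (fun p => (1 - (G p * (starRingEnd ℂ) (χ ((p : ℕ) : ZMod q))).re) / (p : ℝ))
        (fun p _ => by
          refine div_nonneg ?_ (Nat.cast_nonneg _)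
          have h1 : ‖G p * (starRingEnd ℂ) (χ ((p : ℕ) : ZMod q))‖ ≤ 1 := by
            rw [norm_mul, RCLike.norm_conj]
            exact mul_le_one₀ (hG p) (norm_nonneg _) (DirichletCharacter.norm_le_one χ _)
          have h2 := (abs_le.mp (Complex.abs_re_le_norm
            (G p * (starRingEnd ℂ) (χ ((p : ℕ) : ZMod q))))).2
          linarith) (h q χ hq) M
      refine ⟨T, hT _ (fun p hp hpT => ?_) (fun p hp => (Finset.mem_filter.mp hp).2)⟩
      exact Finset.mem_filter.mpr ⟨Finset.mem_Icc.mpr ⟨hp.one_lt.le, hpT⟩, hp⟩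

/-- Let `f_1, …, f_k` be multiplicative functions with values in the unit disc, and let
`a i n + L i (d)` be integer linear forms in `n` and `r` parameters `d`, with `a i ≠ 0`.
(1) Let `lg` be a set of parameters, called long. If the product of the functions of ONE cluster is far
from all twisted characters (or has finitely many values at the primes and is non-pretentious), then
for all `R`, `ε > 0` there is `K` such that for all `x ≥ K`, `K ≤ D j ≤ R x`, with `x ≤ R (D j)` for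
the long parameters, the sum over the box `1 ≤ d j ≤ D j` of the ABSOLUTE VALUES of the correlation
sums is at most `ε x ∏ D j`.
(2) If this holds for the product of all the functions, then also for the correlation sums
with the additional factor `exp (2 π i γ n)`, uniformly in the real number `γ`. -/
theorem result : ∀ (k r : ℕ) (f : Fin k → ℕ → ℂ), (∀ i, IsMult (f i)) →
    ∀ (a : Fin k → ℤ) (L : Fin k → Fin r → ℤ), (∀ i, a i ≠ 0) → ∀ (R : ℕ) (ε : ℝ), 0 < ε →
    (∀ (lg : Finset (Fin r)) (i₀ : Fin k),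
      (FarFromTwists (fun m => ∏ i ∈ cluster a L lg i₀, f i m) ∨
        FiniteNonPretentious (fun m => ∏ i ∈ cluster a L lg i₀, f i m)) →
      ∃ K : ℕ, ∀ (D : Fin r → ℕ) (x : ℕ),
        K ≤ x → (∀ j, K ≤ D j) → (∀ j, D j ≤ R * x) → (∀ j ∈ lg, x ≤ R * D j) →
        ∑ d ∈ Fintype.piFinset (fun j => Icc (1 : ℤ) (D j)), ‖corr a L f x d‖
          ≤ ε * (x * ∏ j, (D j : ℝ))) ∧
    ((FarFromTwists (fun m => ∏ i, f i m) ∨ FiniteNonPretentious (fun m => ∏ i, f i m)) →
      ∃ K : ℕ, ∀ (D : Fin r → ℕ) (x : ℕ),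
        K ≤ x → (∀ j, K ≤ D j) → (∀ j, D j ≤ R * x) → ∀ γ : ℝ,
        ∑ d ∈ Fintype.piFinset (fun j => Icc (1 : ℤ) (D j)), ‖twisted a L f γ x d‖
          ≤ ε * (x * ∏ j, (D j : ℝ))) := by
  intro k r f hf a L ha R ε hε
  refine ⟨fun lg i₀ h => ?_, fun h => ?_⟩
  · obtain ⟨K, hK⟩ := Pool.Agent.N788.Sys.clusters_fixed a L ha (lgb lg) i₀ f hf (by
      rw [cls_eq]
      refine cond _ (fun p => ?_) h
      rw [norm_prod]
      exact Finset.prod_le_one (fun _ _ => norm_nonneg _) fun i _ => (hf i).1 p) R ε hε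
    exact ⟨K, fun D x hx hD hDx hlg => hK D x hD hx hDx
      (fun j hj => hlg j (by simpa [lgb] using hj))⟩
  · obtain ⟨K, hK⟩ := Pool.Agent.N788.Sys.twists_fixed a L ha f hf
      (cond _ (fun p => by
        rw [norm_prod]
        exact Finset.prod_le_one (fun _ _ => norm_nonneg _) fun i _ => (hf i).1 p) h) R ε hε
    exact ⟨K, fun D x hx hD hDx γ => hK D x hD hx hDx γ⟩

end Pool.Agent.Results.MP_0c9a68_nt.Clusters
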